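import Mathlib
import Pool.Agent.H31.Spec5

set_option autoImplicit false
open Matrix Finset SimpleGraph

namespace Pool.Agent.Results.MP_a456c8_co.Pendant

variable {V : Type} [Fintype V] [DecidableEq V]

/-- The Laplacian of a weight matrix. -/
def lap (W : Matrix V V ℝ) : Matrix V V ℝ := diagonal (fun i => ∑ j, W i j) - W

/-- `f` spans the eigenspace of a positive eigenvalue `l` below which only constant eigenvectors
occur: `l` is the second smallest eigenvalue, it is simple and `f` is an eigenvector for it. -/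
def IsFiedler (L : Matrix V V ℝ) (f : V → ℝ) : Prop :=
  f ≠ 0 ∧ ∃ l : ℝ, 0 < l ∧ L *ᵥ f = l • f ∧ (∀ g, L *ᵥ g = l • g → ∃ c : ℝ, g = c • f) ∧
    ∀ (m : ℝ) g, m < l → L *ᵥ g = m • g → ∃ c : ℝ, g = fun _ => c

def IsExtremum (f : V → ℝ) (u : V) : Prop := (∀ i, f i ≤ f u) ∨ ∀ i, f u ≤ f i

/-- The weights of `G` with a new vertex `none` joined to `v` by an edge of weight `x`. -/
def ext (G : SimpleGraph V) [DecidableRel G.Adj] (v : V) (x : ℝ) : Matrix (Option V) (Option V) ℝ
  | some a, some b => G.adjMatrix ℝ a b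
  | none, none => 0
  | some a, none => if a = v then x else 0
  | none, some a => if a = v then x else 0

theorem fied [Nonempty V] {L : Matrix V V ℝ} (Q : V → V → ℚ) (hL : ∀ i j, L i j = Q i j)
    (f : V → ℚ) (l k : ℚ) (l0 : 0 < l) (lk : l < k) (f0 : f ≠ 0) (s : ∀ i j, Q i j = Q j i)
    (r : ∀ i, ∑ j, Q i j = 0) (e : ∀ i, ∑ j, Q i j * f j = l * f i) {n : ℕ} (U : Fin n → V → ℚ)
    (D : Fin n → ℚ) (h : ∀ i j, Q i j - (if j = i then k else 0) + 1 + f i * f j =
      ∑ t, D t * U t i * U t j) (hD : ∀ t, 0 ≤ D t) : IsFiedler L fun i => f i := by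
  obtain ⟨F, hF⟩ : ∃ F : V → ℝ, F = fun i => (f i : ℝ) := ⟨_, rfl⟩
  have F0 : F ≠ 0 := fun x => f0 (funext fun i => by simpa [hF] using congrFun x i)
  have e' : L *ᵥ F = (l : ℝ) • F := by
    ext i; simp only [mulVec, dotProduct, hL, hF, Pi.smul_apply, smul_eq_mul]; exact_mod_cast e i
  have r' : (L *ᵥ fun _ => 1) = 0 := by
    ext i; simp only [mulVec, dotProduct, hL, mul_one, Pi.zero_apply]; exact_mod_cast r i
  have s' : ∀ x y, x ⬝ᵥ L *ᵥ y = L *ᵥ x ⬝ᵥ y := fun x y => by
    rw [dotProduct_mulVec, ← mulVec_transpose, show Lᵀ = L by ext i j; simp [hL, s i j]]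
  have l0' : (0 : ℝ) < l := by exact_mod_cast l0
  have pos : ∀ x : V → ℝ, x ≠ 0 → 0 < x ⬝ᵥ x := fun x h =>
    (dotProduct_self_star_pos_iff.mpr h : 0 < x ⬝ᵥ star x)
  have key : ∀ (m : ℝ) g, m ≤ l → L *ᵥ g = m • g → (fun _ => 1) ⬝ᵥ g = 0 → F ⬝ᵥ g = 0 → g = 0 :=
    fun m g hm hg a b => by
      by_contra c
      have := H31.Spec.ldl _ U D h hD g
      have q : ∑ i, ∑ j, ((Q i j - (if j = i then k else 0) + 1 + f i * f j : ℚ) : ℝ) * g i * g j =
          g ⬝ᵥ L *ᵥ g - k * (g ⬝ᵥ g) + ((fun _ => 1) ⬝ᵥ g) * ((fun _ => 1) ⬝ᵥ g) +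
            (F ⬝ᵥ g) * (F ⬝ᵥ g) := by
        simp only [dotProduct, mulVec, sum_mul_sum, hL, hF]
        simp only [mul_sum, ← sum_sub_distrib, ← sum_add_distrib]
        refine sum_congr rfl fun i _ => ?_
        rw [show (k : ℝ) * (g i * g i) = ∑ j, if j = i then k * (g i * g j) else 0 by simp,
          ← sum_sub_distrib, ← sum_add_distrib, ← sum_add_distrib]
        refine sum_congr rfl fun j _ => ?_
        split_ifs <;> push_cast <;> ring
      rw [q, a, b, hg, dotProduct_smul, smul_eq_mul] at this
      have : (l : ℝ) < k := by exact_mod_cast lk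
      nlinarith [pos g c]
  have o : ∀ (m : ℝ) g, m ≠ 0 → L *ᵥ g = m • g → (fun _ => 1) ⬝ᵥ g = 0 := fun m g hm hg => by
    simpa [hg, r', hm] using s' (fun _ => 1) g
  refine hF ▸ ⟨F0, l, l0', e', fun g hg => ⟨F ⬝ᵥ g / F ⬝ᵥ F, sub_eq_zero.mp (key l _ le_rfl ?_ ?_ ?_)⟩,
    fun m g hm hg => ⟨(fun _ => 1) ⬝ᵥ g / Fintype.card V, ?_⟩⟩
  · rw [mulVec_sub, mulVec_smul, hg, e', smul_comm, smul_sub]
  · rw [dotProduct_sub, dotProduct_smul, o _ _ l0'.ne' hg, o _ _ l0'.ne' e']; simp
  · rw [dotProduct_sub, dotProduct_smul, smul_eq_mul, div_mul_cancel₀ _ (pos F F0).ne', sub_self]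
  · have a : F ⬝ᵥ g = 0 := by
      have := s' F g
      rw [hg, e', dotProduct_smul, smul_dotProduct, smul_eq_mul, smul_eq_mul] at this
      exact (mul_eq_mul_right_iff.mp this).resolve_left hm.ne
    by_cases m0 : m = 0
    · refine (sub_eq_zero.mp (key 0 (g - ((fun _ => 1) ⬝ᵥ g / Fintype.card V) • fun _ => 1) l0'.le
        ?_ ?_ ?_)).trans (by ext; simp)
      · rw [mulVec_sub, mulVec_smul, hg, r', m0]; simp
      · rw [dotProduct_sub, dotProduct_smul]; simp [dotProduct]
      · rw [dotProduct_sub, dotProduct_smul, a, dotProduct_comm F, o _ _ l0'.ne' e']; simp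
    · rw [key m g hm.le hg (o _ _ m0 hg) a]; ext; simp

def G : SimpleGraph (Fin 8) := fromRel fun a b => (a, b) ∈ ([(0, 5), (0, 7), (1, 4), (1, 6), (2, 3), (2, 7), (3, 6), (4, 5), (4, 6), (5, 7), (6, 7)] : List (Fin 8 × Fin 8))

instance : DecidableRel G.Adj := fun _ _ => by unfold G; simp only [fromRel_adj]; infer_instance

def ix : Option (Fin 8) → Fin 9 := fun a => a.elim 8 Fin.castSucc

def W : Option (Fin 8) → Option (Fin 8) → ℚ
  | some a, some b => G.adjMatrix ℚ a b
  | none, none => 0
  | some a, none => if a = 4 then 382843177920/2643816719 else 0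
  | none, some a => if a = 4 then 382843177920/2643816719 else 0

theorem result : ∃ (V : Type) (_ : Fintype V) (_ : DecidableEq V) (G : SimpleGraph V)
    (_ : DecidableRel G.Adj) (v : V) (x : ℝ) (f : V → ℝ) (g : Option V → ℝ), G.Connected ∧ 0 < x ∧
    IsFiedler (lap (G.adjMatrix ℝ)) f ∧ IsExtremum f v ∧ IsFiedler (lap (ext G v x)) g ∧
    ¬ IsExtremum g none := by
  refine ⟨_, inferInstance, inferInstance, G, inferInstance, 4, (382843177920/2643816719 : ℚ), _, _, by decide +kernel,
    by norm_num, fied (fun i j => (diagonal (fun i => ∑ j, G.adjMatrix ℚ i j) - G.adjMatrix ℚ) i j) ?_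
      ![-1, -1, 2, 2, -1, -1, 0, 0] 1 (21 / 20) (by norm_num) (by norm_num) (by decide +kernel)
      (by decide +kernel) (by decide +kernel) (by decide +kernel)
      ![![59, 40, -20, -20, 40, 20, 20, 0],
    ![0, 1881, -380, -380, -420, 1560, -800, 1180],
    ![0, 0, 10981, 7120, -780, -780, 2380, 400],
    ![0, 0, 0, 705939, -30420, -30420, -126800, 235220],
    ![0, 0, 0, 0, 17062801, 4011980, -5288400, 8830380],
    ![0, 0, 0, 0, 0, 12257, 7660, -5600],
    ![0, 0, 0, 0, 0, 0, 17255417, 15688000],
    ![0, 0, 0, 0, 0, 0, 0, 1]]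
      ![1/1180, 1/2219580, 1/21742380, 1/155038323180, 1/117364429142380, 9321/597539291020, 1/164969724011820, 756140401/2415758380]
      (by decide +kernel) (by decide +kernel), .inr fun i => ?_,
    fied (fun i j => (if i = j then ∑ j, W i j else 0) - W i j) ?_
      (fun i => ![-6277448857, 19297517063, -26183761177, -20696803897, 19027210343, 1805983943, 2787374163, -8902230477, 19142158896] (ix i)) (20/23) 1 (by norm_num) (by norm_num) (by decide +kernel)
      (by decide +kernel) (by decide +kernel) (by decide +kernel)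
      (fun t i => ![![39406364152250606451, -121139176430067346990, 164367221672519624690, 129923127966775795730, -119442339819563927950, -11336971838745703151, -17497598753555681690, 55883296532594214789, -120163923482207581871],
    ![0, 1065879410758188198821, -1014384837263550597550, -768171440088302631310, 974937348760296440159, 120445347902089348420, 246215576126538715219, -360058821437675866440, 1019501739900960020209],
    ![0, 0, 4216276700658041904151, 1582069784088892711149, -2004017322793106422460, 1914887857145911637380, -516913571803067977800, 1829574115516758886099, -1000158479907978011471],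
    ![0, 0, 0, 10712223580158503633480, -3022432835450917424440, 3876094008401102336840, -4620931183544316000871, 7184273070477586032669, -1507959506399746892542],
    ![0, 0, 0, 0, 105154967413997396547933775336603, 247308931419995037683465966117, -62261387721718326827882422315, 452546372943145597252307434891, -101568300314124547223212595590944],
    ![0, 0, 0, 0, 0, 27534304158216552700140, 23964832229935992496637, -19464687310876270677883, 16673001811370126342914],
    ![0, 0, 0, 0, 0, 0, 37467815646952508594129, 25826524908627931491469, -177524939601337797582],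
    ![0, 0, 0, 0, 0, 0, 0, 15493057582947307214453, 20718399681993029476643],
    ![0, 0, 0, 0, 0, 0, 0, 0, 1]] t (ix i))
      ![1/39406364152250606451, 1/42002432202723466834813383828488613194271, 1/4494042525290871553954613807666987813205971, 1/45165698693261973179085808029370031394575480, 1/74452755378973137846516033178861812451315903794718658735501209, 531726636/241280738043696217941465220501054267206859959752102035, 1/687766821444783782705701443857858126867652040, 3/580491025325489330540343573130762886139746437, 47931699276596979059432/15493057582947307214453]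
      (by decide +kernel) (by decide +kernel), ?_⟩
  · intro i j
    simp [lap, diagonal_apply, adjMatrix_apply, apply_ite (Rat.cast : ℚ → ℝ)]
  · exact Rat.cast_le.mpr (by revert i; decide +kernel)
  · have : ∀ i j, ext G 4 (382843177920/2643816719 : ℚ) i j = W i j := by
      rintro (_ | i) (_ | j) <;> simp [ext, W, adjMatrix_apply, apply_ite (Rat.cast : ℚ → ℝ)]
    intro i j
    simp [lap, diagonal_apply, this, apply_ite (Rat.cast : ℚ → ℝ), -Rat.cast_div]
  · rintro (h | h)
    · exact absurd (Rat.cast_le.mp (h (some 1))) (by decide +kernel)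
    · exact absurd (Rat.cast_le.mp (h (some 2))) (by decide +kernel)

end Pool.Agent.Results.MP_a456c8_co.Pendant
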